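import Mathlib

/-!
Project CL of helper444, part MAXP (helper618): a minimum principle in a half strip.
-/

set_option autoImplicit false

namespace Pool.Agent.H618.CL

open Complex Set

/-- the real part of a term -/
theorem term_nonneg {s p : ℂ} {m : ℝ} (hm : 0 ≤ m) (h : p.re ≤ s.re) :
    0 ≤ ((m : ℂ) / (s - p)).re := by
  rw [Complex.div_re, ofReal_re, ofReal_im]
  have h1 : 0 ≤ (s - p).re := by rw [sub_re]; linarith
  have h2 : 0 ≤ normSq (s - p) := normSq_nonneg _
  rw [zero_mul, zero_div, add_zero]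
  positivity

/-- on the line the real part is zero -/
theorem term_zero {s p : ℂ} {m : ℝ} (h : p.re = s.re) : ((m : ℂ) / (s - p)).re = 0 := by
  rw [Complex.div_re, ofReal_re, ofReal_im]
  have h1 : (s - p).re = 0 := by rw [sub_re]; linarith
  rw [h1]
  simp

/-- the real part of the cosine -/
theorem cos_re (x y : ℝ) : (Complex.cos (⟨x, y⟩ : ℂ)).re = Real.cos x * Real.cosh y := by
  have h : (⟨x, y⟩ : ℂ) = (x : ℂ) + (y : ℂ) * I := by
    apply Complex.ext <;> simp
  rw [h, Complex.cos_add_mul_I, ← ofReal_cos, ← ofReal_cosh, ← ofReal_sin, ← ofReal_sinh,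
    ← ofReal_mul, ← ofReal_mul, sub_re, ofReal_re, re_ofReal_mul, I_re, mul_zero, sub_zero]

/-- an interval without finitely many points is dense -/
theorem dense_aux {φ : ℝ → ℝ} {y₀ B c : ℝ} (hB : 0 < B) (F : Finset ℝ)
    (hφ : ∀ y, |y - y₀| ≤ B → ContinuousAt φ y) (h : ∀ y, |y - y₀| ≤ B → y ∉ F → c ≤ φ y) :
    ∀ y, |y - y₀| ≤ B → c ≤ φ y := by
  intro y hy
  by_contra hc
  push Not at hc
  obtain ⟨δ, hδ, h1⟩ := Metric.mem_nhds_iff.1 ((hφ y hy).eventually_lt continuousAt_const hc)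
  rw [abs_le] at hy
  have h2 : max (y₀ - B) (y - δ) < min (y₀ + B) (y + δ) := by
    rw [max_lt_iff, lt_min_iff, lt_min_iff]
    refine ⟨⟨by linarith, by linarith⟩, by linarith, by linarith⟩
  obtain ⟨z, hz, hzF⟩ := (Set.Ioo_infinite h2).exists_notMem_finset F
  rw [mem_Ioo, max_lt_iff, lt_min_iff] at hz
  have h3 : φ z < c := h1 (by
    rw [Metric.mem_ball, Real.dist_eq, abs_lt]
    constructor <;> linarith [hz.1.2, hz.2.2])
  have h4 := h z (by rw [abs_le]; constructor <;> linarith [hz.1.1, hz.2.1]) hzF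
  linarith

theorem maxp : ∀ (A : Finset ℂ) (p : ℂ → ℂ) (m : ℂ → ℝ) (Q : ℂ → ℂ) (σ₁ y₀ B η M : ℝ),
  1 / 2 < σ₁ → 0 < B → 0 ≤ η → 0 ≤ M →
  (∀ a ∈ A, (p a).re ≤ 1 / 2 ∧ 0 ≤ m a) →
  (∀ s : ℂ, 1 / 2 ≤ s.re → s.re ≤ σ₁ → |s.im - y₀| ≤ B → AnalyticAt ℂ Q s) →
  (∀ y : ℝ, |y - y₀| ≤ B → (∀ a ∈ A, p a ≠ ⟨1 / 2, y⟩) →
    -η ≤ (∑ a ∈ A, (m a : ℂ) / ((⟨1 / 2, y⟩ : ℂ) - p a) + Q ⟨1 / 2, y⟩).re) →
  (∀ y : ℝ, |y - y₀| ≤ B → -η ≤ (∑ a ∈ A, (m a : ℂ) / ((⟨σ₁, y⟩ : ℂ) - p a) + Q ⟨σ₁, y⟩).re) →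
  (∀ s : ℂ, 1 / 2 < s.re → s.re ≤ σ₁ → |s.im - y₀| ≤ B →
    -M ≤ (∑ a ∈ A, (m a : ℂ) / (s - p a) + Q s).re) →
  ∀ σ : ℝ, 1 / 2 < σ → σ ≤ σ₁ →
    -(η + 2 * M / Real.cosh (B / σ₁)) ≤
      (∑ a ∈ A, (m a : ℂ) / ((⟨σ, y₀⟩ : ℂ) - p a) + Q ⟨σ, y₀⟩).re := by
  classical
  intro A p m Q σ₁ y₀ B η M hσ₁ hB hη hM hA hQ hL hR hS σ hσ hσ'
  have hcosh : 0 < Real.cosh (B / σ₁) := Real.cosh_pos _
  set κ : ℝ := 2 * M / Real.cosh (B / σ₁) with hκ
  have hκ0 : 0 ≤ κ := by positivity
  -- the trivial case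
  rcases hσ'.eq_or_lt with rfl | hσ'
  · have := hR y₀ (by rw [sub_self, abs_zero]; exact hB.le)
    linarith
  set f : ℂ → ℂ := fun s => ∑ a ∈ A, (m a : ℂ) / (s - p a) + Q s with hf
  -- splitting
  set Q₁ : ℂ → ℂ := fun s => ∑ a ∈ A.filter (fun a => (p a).re ≠ 1 / 2), (m a : ℂ) / (s - p a) + Q s
    with hQ₁
  have hsplit : ∀ s, f s = ∑ a ∈ A.filter (fun a => (p a).re = 1 / 2), (m a : ℂ) / (s - p a) +
      Q₁ s := by
    intro s
    simp only [hf, hQ₁]
    rw [← add_assoc, Finset.sum_filter_add_sum_filter_not]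
  have hQ₁a : ∀ s : ℂ, 1 / 2 ≤ s.re → s.re ≤ σ₁ → |s.im - y₀| ≤ B → DifferentiableAt ℂ Q₁ s := by
    intro s h1 h2 h3
    refine DifferentiableAt.add ?_ (hQ s h1 h2 h3).differentiableAt
    refine DifferentiableAt.fun_sum fun a ha => ?_
    rw [Finset.mem_filter] at ha
    refine (differentiableAt_const _).div ((differentiableAt_id).sub (differentiableAt_const _)) ?_
    intro h4
    have h5 : s = p a := sub_eq_zero.1 h4
    have h6 := (hA a ha.1).1
    have h7 := ha.2
    rw [← h5] at h6 h7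
    exact h7 (le_antisymm h6 h1)
  -- on the line
  have hline : ∀ y : ℝ, (f ⟨1 / 2, y⟩).re = (Q₁ ⟨1 / 2, y⟩).re := by
    intro y
    rw [hsplit, add_re, re_sum, Finset.sum_eq_zero, zero_add]
    intro a ha
    exact term_zero (Finset.mem_filter.1 ha).2
  have hQline : ∀ y : ℝ, |y - y₀| ≤ B → -η ≤ (Q₁ ⟨1 / 2, y⟩).re := by
    refine dense_aux hB (A.image fun a => (p a).im) (fun y hy => ?_) (fun y hy hyF => ?_)
    · have h1 : ContinuousAt Q₁ ⟨1 / 2, y⟩ := (hQ₁a ⟨1 / 2, y⟩ le_rfl hσ₁.le hy).continuousAt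
      have h2 : Continuous fun y : ℝ => (⟨1 / 2, y⟩ : ℂ) := by
        have h3 : (fun y : ℝ => (⟨1 / 2, y⟩ : ℂ)) = fun y : ℝ => ((1 / 2 : ℝ) : ℂ) + (y : ℂ) * I := by
          funext y
          apply Complex.ext <;> simp
        rw [h3]
        fun_prop
      exact continuous_re.continuousAt.comp (ContinuousAt.comp (f := fun y : ℝ => (⟨1 / 2, y⟩ : ℂ))
        h1 h2.continuousAt)
    · rw [← hline]
      refine hL y hy fun a ha h1 => hyF ?_
      rw [Finset.mem_image]
      exact ⟨a, ha, by rw [h1]⟩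
  -- near the line
  have hcomp : IsCompact (Icc (1 / 2) σ₁ ×ℂ Icc (y₀ - B) (y₀ + B)) :=
    isCompact_Icc.reProdIm isCompact_Icc
  have hcont : ContinuousOn Q₁ (Icc (1 / 2) σ₁ ×ℂ Icc (y₀ - B) (y₀ + B)) := by
    intro s hs
    rw [mem_reProdIm] at hs
    exact (hQ₁a s hs.1.1 hs.1.2 (by rw [abs_le]; constructor <;> linarith [hs.2.1, hs.2.2])
      ).continuousAt.continuousWithinAt
  have huc := hcomp.uniformContinuousOn_of_continuous hcont
  rw [Metric.uniformContinuousOn_iff] at huc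
  -- the main estimate
  have hmain : ∀ η' : ℝ, 0 < η' → -(η + η' + κ) ≤ (f ⟨σ, y₀⟩).re := by
    intro η' hη'
    obtain ⟨δ, hδ, huc⟩ := huc η' hη'
    set e : ℝ := min (δ / 2) ((σ - 1 / 2) / 2) with he
    have he0 : 0 < e := lt_min (by positivity) (by linarith)
    have heδ : e < δ := (min_le_left _ _).trans_lt (by linarith)
    have heσ : 1 / 2 + e < σ := by
      have := min_le_right (δ / 2) ((σ - 1 / 2) / 2)
      rw [← he] at this
      linarith
    have hleft : ∀ y : ℝ, |y - y₀| ≤ B → -(η + η') ≤ (f ⟨1 / 2 + e, y⟩).re := by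
      intro y hy
      have hy' := abs_le.1 hy
      have h1 : -(η + η') ≤ (Q₁ ⟨1 / 2 + e, y⟩).re := by
        have h2 := huc ⟨1 / 2 + e, y⟩ ⟨⟨by simp only; linarith, by simp only; linarith⟩,
          ⟨by simp only; linarith [hy'.1], by simp only; linarith [hy'.2]⟩⟩ ⟨1 / 2, y⟩
          ⟨⟨by simp only; linarith, by simp only; linarith⟩,
          ⟨by simp only; linarith [hy'.1], by simp only; linarith [hy'.2]⟩⟩ (by
            rw [dist_eq_norm]
            have h3 : (⟨1 / 2 + e, y⟩ : ℂ) - ⟨1 / 2, y⟩ = (e : ℂ) := by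
              apply Complex.ext <;> simp
            rw [h3, Complex.norm_real, Real.norm_eq_abs, abs_of_pos he0]
            exact heδ)
        have h4 := hQline y hy
        rw [dist_eq_norm] at h2
        have h5 := (abs_re_le_norm _).trans h2.le
        rw [sub_re, abs_le] at h5
        linarith [h5.1]
      rw [hsplit, add_re, re_sum]
      have h6 : 0 ≤ ∑ a ∈ A.filter (fun a => (p a).re = 1 / 2),
          ((m a : ℂ) / ((⟨1 / 2 + e, y⟩ : ℂ) - p a)).re := by
        refine Finset.sum_nonneg fun a ha => ?_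
        rw [Finset.mem_filter] at ha
        refine term_nonneg (hA a ha.1).2 ?_
        rw [ha.2]
        simp only
        linarith
      linarith
    set U : Set ℂ := Ioo (1 / 2 + e) σ₁ ×ℂ Ioo (y₀ - B) (y₀ + B) with hU
    set x₀ : ℝ := (1 / 2 + σ₁) / 2 with hx₀
    set G : ℂ → ℂ := fun s => cexp (-f s - κ * Complex.cos ((σ₁⁻¹ : ℝ) * (s - ⟨x₀, y₀⟩))) with hG
    have hσ0 : 0 < σ₁ := by linarith
    have hnG : ∀ s : ℂ, ‖G s‖ = Real.exp (-(f s).re -
        κ * (Real.cos (σ₁⁻¹ * (s.re - x₀)) * Real.cosh (σ₁⁻¹ * (s.im - y₀)))) := by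
      intro s
      simp only [hG]
      rw [Complex.norm_exp]
      congr 1
      have h1 : ((σ₁⁻¹ : ℝ) : ℂ) * (s - ⟨x₀, y₀⟩) =
          ⟨σ₁⁻¹ * (s.re - x₀), σ₁⁻¹ * (s.im - y₀)⟩ := by
        apply Complex.ext <;> simp
      rw [h1, sub_re, neg_re, re_ofReal_mul, cos_re]
    have hcos : ∀ x : ℝ, 1 / 2 ≤ x → x ≤ σ₁ → 1 / 2 ≤ Real.cos (σ₁⁻¹ * (x - x₀)) := by
      intro x h1 h2
      have h3 : |σ₁⁻¹ * (x - x₀)| ≤ 1 / 2 := by
        rw [abs_mul, abs_of_pos (inv_pos.2 hσ0), inv_mul_le_iff₀ hσ0, abs_le, hx₀]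
        constructor <;> linarith
      have h4 := Real.one_sub_sq_div_two_le_cos (x := σ₁⁻¹ * (x - x₀))
      have h5 : (σ₁⁻¹ * (x - x₀)) ^ 2 ≤ 1 / 4 := by
        rw [← sq_abs]
        nlinarith [abs_nonneg (σ₁⁻¹ * (x - x₀))]
      linarith
    have hUb : Bornology.IsBounded U := by
      refine (Metric.isBounded_Ioo _ _).reProdIm (Metric.isBounded_Ioo _ _)
    have hcl : closure U = Icc (1 / 2 + e) σ₁ ×ℂ Icc (y₀ - B) (y₀ + B) := by
      rw [hU, closure_reProdIm, closure_Ioo (by linarith), closure_Ioo (by linarith)]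
    have hd : DiffContOnCl ℂ G U := by
      refine DifferentiableOn.diffContOnCl fun s hs => ?_
      rw [hcl, mem_reProdIm] at hs
      have h1 : 1 / 2 < s.re := by linarith [hs.1.1]
      have h3 : |s.im - y₀| ≤ B := by rw [abs_le]; constructor <;> linarith [hs.2.1, hs.2.2]
      have h4 : DifferentiableAt ℂ f s := by
        refine DifferentiableAt.add ?_ (hQ s h1.le hs.1.2 h3).differentiableAt
        refine DifferentiableAt.fun_sum fun a ha => ?_
        refine (differentiableAt_const _).div ((differentiableAt_id).sub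
          (differentiableAt_const _)) ?_
        intro h4
        have h5 : s = p a := sub_eq_zero.1 h4
        have h6 := (hA a ha).1
        rw [← h5] at h6
        linarith
      have h5 : DifferentiableAt ℂ (fun s : ℂ => (κ : ℂ) *
          Complex.cos ((σ₁⁻¹ : ℝ) * (s - ⟨x₀, y₀⟩))) s := by fun_prop
      exact ((h4.neg.sub h5).cexp).differentiableWithinAt
    have hfr : ∀ z ∈ frontier U, ‖G z‖ ≤ Real.exp (η + η') := by
      intro z hz
      rw [hU, frontier_reProdIm, closure_Ioo (by linarith), closure_Ioo (by linarith),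
        frontier_Ioo (by linarith), frontier_Ioo (by linarith)] at hz
      rw [hnG, Real.exp_le_exp]
      rcases hz with hz | hz
      · -- horizontal sides
        rw [mem_reProdIm] at hz
        have h1 : |z.im - y₀| = B := by
          rcases hz.2 with h2 | h2
          · rw [h2, show y₀ - B - y₀ = -B by ring, abs_neg, abs_of_pos hB]
          · rw [mem_singleton_iff] at h2
            rw [h2, show y₀ + B - y₀ = B by ring, abs_of_pos hB]
        have h2 := hS z (by linarith [hz.1.1]) hz.1.2 h1.le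
        have h3 : Real.cosh (σ₁⁻¹ * (z.im - y₀)) = Real.cosh (B / σ₁) := by
          rw [← Real.cosh_abs, abs_mul, abs_of_pos (inv_pos.2 hσ0), h1]
          congr 1
          ring
        have h4 := hcos z.re (by linarith [hz.1.1]) hz.1.2
        rw [h3]
        have h5 : M ≤ κ * (Real.cos (σ₁⁻¹ * (z.re - x₀)) * Real.cosh (B / σ₁)) := by
          have h6 : κ * (Real.cos (σ₁⁻¹ * (z.re - x₀)) * Real.cosh (B / σ₁)) =
              2 * M * Real.cos (σ₁⁻¹ * (z.re - x₀)) := by
            rw [hκ]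
            field_simp
          rw [h6]
          nlinarith
        have h7 : -M ≤ (f z).re := h2
        linarith
      · -- vertical sides
        rw [mem_reProdIm] at hz
        have h1 : |z.im - y₀| ≤ B := by
          rw [abs_le]
          constructor <;> linarith [hz.2.1, hz.2.2]
        have h0 : ∀ x : ℝ, z.re = x → z = ⟨x, z.im⟩ := fun x hx => by
          apply Complex.ext
          · exact hx
          · rfl
        have h2 : -(η + η') ≤ (f z).re := by
          rcases hz.1 with h3 | h3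
          · rw [h0 _ h3]
            exact hleft _ h1
          · rw [mem_singleton_iff] at h3
            rw [h0 _ h3]
            have := hR z.im h1
            have h4 : -η ≤ (f ⟨σ₁, z.im⟩).re := this
            linarith
        have h3 : 1 / 2 ≤ z.re ∧ z.re ≤ σ₁ := by
          rcases hz.1 with h3 | h3
          · rw [h3]
            constructor <;> linarith
          · rw [mem_singleton_iff] at h3
            rw [h3]
            constructor <;> linarith
        have h4 := hcos z.re h3.1 h3.2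
        have h5 : 0 ≤ κ * (Real.cos (σ₁⁻¹ * (z.re - x₀)) * Real.cosh (σ₁⁻¹ * (z.im - y₀))) := by
          have := Real.cosh_pos (σ₁⁻¹ * (z.im - y₀))
          positivity
        linarith
    have hzU : (⟨σ, y₀⟩ : ℂ) ∈ closure U := by
      rw [hcl, mem_reProdIm]
      exact ⟨⟨by simp only; linarith, by simp only; linarith⟩,
        ⟨by simp only; linarith, by simp only; linarith⟩⟩
    have hfin := Complex.norm_le_of_forall_mem_frontier_norm_le hUb hd hfr hzU
    rw [hnG, Real.exp_le_exp] at hfin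
    simp only [sub_self, mul_zero, Real.cosh_zero, mul_one] at hfin
    have h1 : κ * Real.cos (σ₁⁻¹ * (σ - x₀)) ≤ κ := by
      have := Real.cos_le_one (σ₁⁻¹ * (σ - x₀))
      nlinarith
    linarith
  have hgoal : -(η + κ) ≤ (f ⟨σ, y₀⟩).re := by
    refine le_of_forall_pos_le_add fun η' hη' => ?_
    have := hmain η' hη'
    linarith
  exact hgoal

end Pool.Agent.H618.CL
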