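import Pool.Agent.H444.CL.Stm
import Pool.Agent.H618.CL.MAXP0

/-!
Project CL of helper444, part MAXP (helper618).
-/

set_option autoImplicit false

namespace Pool.Agent.H618.CL

theorem t_MAXP : Pool.Agent.H444.CL.S_MAXP := maxp

end Pool.Agent.H618.CL
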